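import Pool.Agent.H92.RK.Targets

set_option autoImplicit false

open MeasureTheory Set

namespace Pool.Agent.H17.RK

open Pool.Agent.H92.RK

/-- the calibrating function -/
noncomputable def ph (r : ℝ) : ℝ := 1 - 15 / 4 * r ^ 2 + 66 / 25 * r ^ 4

noncomputable def ph' (r : ℝ) : ℝ := -(15 / 2) * r + 264 / 25 * r ^ 3

noncomputable def pp (r : ℝ) : ℝ := -(15 / 2) * r ^ 2 + 264 / 25 * r ^ 4

noncomputable def pp' (r : ℝ) : ℝ := -15 * r + 1056 / 25 * r ^ 3

theorem ph_deriv (r : ℝ) : HasDerivAt ph (ph' r) r := by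
  have h2 : HasDerivAt (fun x : ℝ => x ^ 2) (2 * r) r := by simpa using hasDerivAt_pow 2 r
  have h4 : HasDerivAt (fun x : ℝ => x ^ 4) (4 * r ^ 3) r := by simpa using hasDerivAt_pow 4 r
  have h := ((hasDerivAt_const r (1 : ℝ)).sub (h2.const_mul (15 / 4))).add (h4.const_mul (66 / 25))
  refine (h.congr_deriv ?_).congr_of_eventuallyEq ?_
  · unfold ph'
    ring
  · exact Filter.Eventually.of_forall fun x => rfl

theorem pp_deriv (r : ℝ) : HasDerivAt pp (pp' r) r := by
  have h2 : HasDerivAt (fun x : ℝ => x ^ 2) (2 * r) r := by simpa using hasDerivAt_pow 2 r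
  have h4 : HasDerivAt (fun x : ℝ => x ^ 4) (4 * r ^ 3) r := by simpa using hasDerivAt_pow 4 r
  have h := (h2.const_mul (-(15 / 2))).add (h4.const_mul (264 / 25))
  refine (h.congr_deriv ?_).congr_of_eventuallyEq ?_
  · unfold pp'
    ring
  · exact Filter.Eventually.of_forall fun x => rfl

theorem r1_sq : r₁ ^ 2 = 7 / 20 := by
  unfold r₁
  exact Real.sq_sqrt (by norm_num)

theorem r1_pos : 0 < r₁ := Real.sqrt_pos.2 (by norm_num)

theorem sq_le {r : ℝ} (h0 : 0 ≤ r) (h1 : r ≤ r₁) : r ^ 2 ≤ 7 / 20 := by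
  rw [← r1_sq]
  exact pow_le_pow_left₀ h0 h1 2

theorem ph_pos {r : ℝ} (h0 : 0 ≤ r) (h1 : r ≤ r₁) : 0 < ph r := by
  have h := sq_le h0 h1
  unfold ph
  have h4 : r ^ 4 = r ^ 2 * r ^ 2 := by ring
  rw [h4]
  nlinarith [sq_nonneg r, mul_nonneg (sub_nonneg.2 h) (sub_nonneg.2 h)]

theorem pf_N1 : T_N1 := by
  intro b b' hb hb1
  obtain ⟨hd, hc'⟩ := hb
  have hc : Continuous b := continuous_iff_continuousAt.2 fun x => (hd x).continuousAt
  have hphc : Continuous ph := by unfold ph; fun_prop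
  have hphc' : Continuous ph' := by unfold ph'; fun_prop
  have hppc : Continuous pp := by unfold pp; fun_prop
  have hppc' : Continuous pp' := by unfold pp'; fun_prop
  set G : ℝ → ℝ := fun r => pp r / ph r with hG
  set G' : ℝ → ℝ := fun r => (pp' r * ph r - pp r * ph' r) / ph r ^ 2 with hG'
  set H : ℝ → ℝ := fun r => G r * b r ^ 2 with hH
  set H' : ℝ → ℝ := fun r => G' r * b r ^ 2 + G r * (2 * b r * b' r) with hH'
  have hdG : ∀ r ∈ uIcc 0 r₁, HasDerivAt G (G' r) r := by
    intro r hr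
    rw [uIcc_of_le r1_pos.le] at hr
    exact (pp_deriv r).div (ph_deriv r) (ph_pos hr.1 hr.2).ne'
  have hdH : ∀ r ∈ uIcc 0 r₁, HasDerivAt H (H' r) r := by
    intro r hr
    have h1 : HasDerivAt (fun x => b x ^ 2) (2 * b r * b' r) r := by
      refine (((hd r).pow 2).congr_deriv ?_).congr_of_eventuallyEq ?_
      · norm_num
      · exact Filter.Eventually.of_forall fun x => rfl
    exact (hdG r hr).mul h1
  have hcG : ContinuousOn G (uIcc 0 r₁) := by
    refine hppc.continuousOn.div hphc.continuousOn ?_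
    intro r hr
    rw [uIcc_of_le r1_pos.le] at hr
    exact (ph_pos hr.1 hr.2).ne'
  have hcG' : ContinuousOn G' (uIcc 0 r₁) := by
    refine ContinuousOn.div ?_ ?_ ?_
    · exact ((hppc'.mul hphc).sub (hppc.mul hphc')).continuousOn
    · exact (hphc.pow 2).continuousOn
    · intro r hr
      rw [uIcc_of_le r1_pos.le] at hr
      exact pow_ne_zero 2 (ph_pos hr.1 hr.2).ne'
  have hcH' : ContinuousOn H' (uIcc 0 r₁) := by
    refine (hcG'.mul (hc.pow 2).continuousOn).add (hcG.mul ?_)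
    exact ((continuous_const.mul hc).mul hc').continuousOn
  have hint : ∫ r in (0 : ℝ)..r₁, H' r = 0 := by
    rw [intervalIntegral.integral_eq_sub_of_hasDerivAt hdH hcH'.intervalIntegrable]
    simp [hH, hG, hb1, pp]
  have i1 : IntervalIntegrable (fun r => b r ^ 2 * r) volume 0 r₁ :=
    ((hc.pow 2).mul continuous_id).intervalIntegrable _ _
  have i2 : IntervalIntegrable (fun r => b' r ^ 2 * r) volume 0 r₁ :=
    ((hc'.pow 2).mul continuous_id).intervalIntegrable _ _
  have key : 0 ≤ ∫ r in (0 : ℝ)..r₁, (b' r ^ 2 * r - 15 * (b r ^ 2 * r) - H' r) := by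
    refine intervalIntegral.integral_nonneg r1_pos.le ?_
    intro r hr
    have hp := ph_pos hr.1 hr.2
    have hs := sq_le hr.1 hr.2
    have e : b' r ^ 2 * r - 15 * (b r ^ 2 * r) - H' r =
        r * (b' r - ph' r / ph r * b r) ^ 2 +
        b r ^ 2 * (r ^ 3 * (1401 / 100 - 198 / 5 * r ^ 2)) / ph r := by
      simp only [hH', hG', hG]
      have hne := hp.ne'
      field_simp
      unfold ph ph' pp pp'
      ring
    rw [e]
    have h1 : 0 ≤ r := hr.1
    have h2 : 0 ≤ 1401 / 100 - 198 / 5 * r ^ 2 := by linarith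
    positivity
  rw [intervalIntegral.integral_sub (i2.sub (i1.const_mul 15)) hcH'.intervalIntegrable, hint,
    intervalIntegral.integral_sub i2 (i1.const_mul 15), intervalIntegral.integral_const_mul] at key
  linarith

end Pool.Agent.H17.RK
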